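import Mathlib
import Pool.Agent.W658.TIDefs
import Pool.Agent.W658.Cone
import Pool.Agent.TH251.TI.Fin

/-!
# A separable, nuclear, stably finite C*-algebra which is not locally of type I

The example is the algebra of continuous functions from the unit interval to the Cuntz algebra on
two generators which are scalar at the point zero.
-/

set_option autoImplicit false

namespace Pool.Agent.Results.MP_b9f29c_an.NotLocallyTypeI

open Pool.Agent.W658.TypeI Pool.Agent.W658.Cone

/-- There is a unital C*-algebra which is separable, nuclear and stably finite, but which is not
locally approximable by type I C*-algebras. -/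
theorem result : ∃ (A : Type) (_ : CStarAlgebra A) (_ : PartialOrder A) (_ : StarOrderedRing A),
    TopologicalSpace.SeparableSpace A ∧ IsNuclear A ∧ IsStablyFinite A ∧ ¬ LocallyTypeI A :=
  ⟨CA, inferInstance, inferInstance, inferInstance, separable_CA, nuclear_CA,
    Pool.Agent.TH251.TI.stablyFinite, Pool.Agent.TH251.TI.not_locallyTypeI⟩

end Pool.Agent.Results.MP_b9f29c_an.NotLocallyTypeI
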